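import Pool.Agent.ABC3.Stmts

/-! # ABC3, row CHI: the trace is multiplicative -/

set_option autoImplicit false

namespace Pool.Agent.ABC3.H48

open Matrix

theorem chi (trc : Pool.Agent.ABC3.TRCStmt) : Pool.Agent.ABC3.CHIStmt := by
  intro K Q B _ _ _ _ _ _ S ι _ ev ep hev h1
  refine ⟨h1, ?_⟩
  intro f f' hf hfc hf' hfc'
  obtain ⟨a, g, hg, hq⟩ := ep f hf hfc
  have hex : ∀ c, ∃ q, ev c q = 1 := by
    intro c
    obtain ⟨q, hq⟩ : ∃ q, ev c q ≠ 0 := by
      by_contra hn
      push Not at hn
      exact hev c (LinearMap.ext hn)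
    exact ⟨(ev c q)⁻¹ • q, by rw [map_smul, smul_eq_mul, inv_mul_cancel₀ hq]⟩
  choose q hq1 using hex
  have e1 := hq q hq1
  obtain ⟨t1, _, _, t4, _, _⟩ := trc K Q B S
  have tf : Matrix.trace f = a * Matrix.trace (1 : Matrix B B K) := by
    have h := congrArg Matrix.trace e1
    rw [Matrix.trace_add, Matrix.trace_smul, Matrix.trace_sum, smul_eq_mul,
      Finset.sum_eq_zero (fun c _ => t1 (q c) (g c)), add_zero] at h
    exact h
  have tff : Matrix.trace (f * f') = a * Matrix.trace f' := by
    have hc : ∀ c, Tr S (q c) (g c) * f' = Tr S (q c) (g c * f') := by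
      intro c
      have h := t4 (q c) 1 (g c) f' (by rw [Matrix.mul_one, Matrix.one_mul])
        (hfc' (q c) trivial)
      rw [Matrix.one_mul, Matrix.one_mul] at h
      exact h
    have h := congrArg (fun M => Matrix.trace (M * f')) e1
    simp only [add_mul, Finset.sum_mul, Matrix.trace_add, Matrix.smul_mul, Matrix.one_mul,
      Matrix.trace_smul, Matrix.trace_sum, smul_eq_mul, hc, t1, Finset.sum_const_zero,
      add_zero] at h
    exact h
  rw [tf, tff]
  ring

end Pool.Agent.ABC3.H48
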